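import Pool.Agent.Work.MP_14a437_ag.T.Gap
import Pool.Agent.Work.MP_14a437_ag.A.Chi
import Pool.Agent.Work.MP_14a437_ag.E.Form
import Pool.Agent.Work.MP_14a437_ag.G.Sum

/-!
# M/Delta  (S-M) : estimates on classes of square at most two suffice

`P_finiteLength τ φ E hE : Ext (TSimple (τ.P φ)) E`.  Show `‖u (cl X)‖ ≤ η * reZ τ.Z φ (cl X)` for all `X`
in `Ext (TSimple (τ.P φ))` by induction (`cl_tri`, triangle inequality, `reZ` is additive); for a simple
object `X`: `χ(X,X) ≤ 2` (`chi_simple_self`, `P_isAdm`, `eulerForm_cl`) and `reZ τ.Z φ (cl X) = ‖τ.Z (cl X)‖`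
(`reZ_of_P` for `τ.toPre` with `α = φ`).
-/

open CategoryTheory CategoryTheory.Limits CategoryTheory.Pretriangulated

universe v u

namespace MP_14a437_ag

variable {C : Type u} [Category.{v} C] [Preadditive C] [HasZeroObject C] [HasShift C ℤ]
  [∀ n : ℤ, (shiftFunctor C n).Additive] [Pretriangulated C] [IsTriangulated C]

variable {k : Type*} [Field k] [IsAlgClosed k] [Linear k C]

theorem ss_of_delta [Module.Free ℤ (K0 C)] [Module.Finite ℤ (K0 C)] (hCY : IsCY2 C k)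
    (τ : StabCond C) (u : K0 C →+ ℂ) {η : ℝ} (hη : 0 ≤ η)
    (h : ∀ x, eulerForm hCY x x ≤ 2 → ‖u x‖ ≤ η * ‖τ.Z x‖) (φ : ℝ) (E : C) (hE : τ.P φ E) :
    ‖u (cl E)‖ ≤ η * ‖τ.Z (cl E)‖ := by
  have hre : ∀ X : C, τ.P φ X → reZ τ.Z φ (cl X) = ‖τ.Z (cl X)‖ := by
    intro X hX
    have h1 : reZ τ.Z φ (cl X) = ‖τ.Z (cl X)‖ * Real.cos (Real.pi * (φ - φ)) :=
      reZ_of_P τ.toPre φ hX
    rw [h1, sub_self, mul_zero, Real.cos_zero, mul_one]
  have key : ∀ X : C, Ext (TSimple (τ.P φ)) X → ‖u (cl X)‖ ≤ η * reZ τ.Z φ (cl X) := by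
    intro X hX
    induction hX with
    | zero h0 => rw [cl_zero h0]; simp
    | of hS =>
      rw [hre _ hS.1]
      refine h _ ?_
      rw [eulerForm_cl]
      exact chi_simple_self hCY (P_isAdm τ φ) hS
    | ext f g h' hT hA hB ihA ihB =>
      rw [cl_tri f g h' hT, map_add, map_add, mul_add]
      exact (norm_add_le _ _).trans (add_le_add ihA ihB)
  have h2 := key E (P_finiteLength τ φ E hE)
  rwa [hre E hE] at h2

end MP_14a437_ag
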