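import Pool.Agent.Work.MP_14a437_ag.Hyp
import Pool.Agent.Work.MP_14a437_ag.L.Rank2
import Pool.Agent.Work.MP_14a437_ag.N.Defs

/-!
# M/RadB : radical bases  (helper76)
-/

open CategoryTheory CategoryTheory.Limits CategoryTheory.Pretriangulated

universe v u

namespace MP_14a437_ag

variable {C : Type u} [Category.{v} C] [Preadditive C] [HasZeroObject C] [HasShift C ℤ]
  [∀ n : ℤ, (shiftFunctor C n).Additive] [Pretriangulated C] [IsTriangulated C]

variable {k : Type*} [Field k] [Linear k C]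

omit [IsTriangulated C] in
theorem IsTubularCY2.psd (hC : IsTubularCY2 k C) (x : K0 C) : 0 ≤ eulerForm hC.cy x x := by
  obtain ⟨X, rfl⟩ := exists_obj x
  rw [eulerForm_cl]; exact hC.semidefinite X

omit [IsTriangulated C] in
theorem IsTubularCY2.span (hC : IsTubularCY2 k C) {a b : K0 C} (ha : a ∈ radical hC.cy)
    (hb : b ∈ radical hC.cy) (hab : ∀ m n : ℤ, m • a + n • b = 0 → m = 0 ∧ n = 0) :
    ∀ x ∈ radical hC.cy, ∃ N m n : ℤ, N ≠ 0 ∧ N • x = m • a + n • b := by
  haveI := hC.free
  haveI := hC.finite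
  exact span_of_rank_two (radical hC.cy) hC.rank_radical ha hb hab

omit [IsTriangulated C] in
theorem IsTubularCY2.radBasis (hC : IsTubularCY2 k C) {a b : K0 C} (ha : a ∈ radical hC.cy)
    (hb : b ∈ radical hC.cy) (hab : ∀ m n : ℤ, m • a + n • b = 0 → m = 0 ∧ n = 0) :
    RadBasis (eulerForm hC.cy) a b where
  symm := eulerForm_symm hC.cy
  psd := hC.psd
  ha := (mem_radical hC.cy a).1 ha
  hb := (mem_radical hC.cy b).1 hb
  indep := hab
  span := fun x hx => hC.span ha hb hab x ((mem_radical hC.cy x).2 hx)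

omit [IsTriangulated C] in
theorem IsTubularCY2.exists_basis (hC : IsTubularCY2 k C) :
    ∃ a ∈ radical hC.cy, ∃ b ∈ radical hC.cy, ∀ m n : ℤ, m • a + n • b = 0 → m = 0 ∧ n = 0 := by
  haveI := hC.free
  haveI := hC.finite
  exact exists_basis_rank_two (radical hC.cy) hC.rank_radical

end MP_14a437_ag
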