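import Pool.Agent.Work.MP_14a437_ag.M.RadB
import Pool.Agent.Work.MP_14a437_ag.T.Orient
import Pool.Agent.Work.MP_14a437_ag.B.Thm

/-!
# M/RadMult  (M) : for rational central charges every radical class has a semistable multiple

Let `v ∈ radical`, `v ≠ 0`.  There is `v' ∈ radical` independent of `v` (take `a` or `b` from
`hC.exists_basis`).  `orient v v' τ ≠ 0` (`orient_ne_zero` with `hC.span`), so `w = τ.Z v ≠ 0`.  Let
`θ = arg w / π`, `δ = 1/(N² ‖w‖)`.  `ht τ θ x = - Im (exp(-π i θ) τ.Z x) = - Im (conj w * τ.Z x) / ‖w‖` and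
`N² Im (conj w * τ.Z x)` is an integer, so `exists_radical_semistable` (B/Thm) gives `E ∈ P θ`, nonzero,
`cl E ∈ radical`.  `τ.Z (cl E) = m exp(π i θ) = (m/‖w‖) w`, `m > 0` (`compat`).  If `v` and `cl E` were
independent, `orient v (cl E) τ = (m/‖w‖) Im (conj w * w) = 0` contradicts `orient_ne_zero`.  So there are
integers `(m₁, n₁) ≠ 0` with `m₁ v + n₁ cl E = 0`; `n₁ ≠ 0` (torsion free), and `m₁ + n₁ m/‖w‖ = 0`, so
`m₁`, `n₁` have opposite signs; take `q = |n₁|`, `p = |m₁|`.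
-/

open CategoryTheory CategoryTheory.Limits CategoryTheory.Pretriangulated

universe v u

namespace MP_14a437_ag

variable {C : Type u} [Category.{v} C] [Preadditive C] [HasZeroObject C] [HasShift C ℤ]
  [∀ n : ℤ, (shiftFunctor C n).Additive] [Pretriangulated C] [IsTriangulated C]

variable {k : Type*} [Field k] [IsAlgClosed k] [Linear k C]

theorem radical_multiple (hC : IsTubularCY2 k C) (τ : StabCond C) {N : ℕ} (hN : 0 < N)
    (hrat : ∀ x : K0 C, ∃ p q : ℤ, (N : ℂ) * τ.Z x = p + q * Complex.I) (v : K0 C)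
    (hv : v ∈ radical hC.cy) (hv0 : v ≠ 0) :
    ∃ (φ : ℝ) (E : C), τ.P φ E ∧ ¬ IsZero E ∧ ∃ p q : ℕ, 0 < p ∧ 0 < q ∧ q • cl E = p • v := by
  haveI := hC.free
  haveI := hC.finite
  obtain ⟨a, ha, b, hb, hab⟩ := hC.exists_basis
  have htf : ∀ (n : ℤ), n • v = 0 → n = 0 := fun n hn => (smul_eq_zero.1 hn).resolve_right hv0
  have hor : ∀ y ∈ radical hC.cy, (∀ m n : ℤ, m • v + n • y = 0 → m = 0 ∧ n = 0) →
      orient v y τ ≠ 0 := fun y hy hvy =>
    orient_ne_zero hC.cy hC.indecomposable hC.psd hv hy hvy (hC.span hv hy hvy) τ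
  have hw : τ.Z v ≠ 0 := by
    intro hw0
    by_cases h : ∀ m n : ℤ, m • v + n • a = 0 → m = 0 ∧ n = 0
    · exact hor a ha h (by simp [orient, hw0])
    · by_cases h' : ∀ m n : ℤ, m • v + n • b = 0 → m = 0 ∧ n = 0
      · exact hor b hb h' (by simp [orient, hw0])
      · push Not at h h'
        obtain ⟨m, n, h1, h2⟩ := h
        obtain ⟨m', n', h3, h4⟩ := h'
        have hm : m ≠ 0 := by
          rintro rfl
          rw [zero_smul, zero_add] at h1
          exact h2 rfl (hab n 0 (by rw [h1, zero_smul, zero_add])).1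
        have hm' : m' ≠ 0 := by
          rintro rfl
          rw [zero_smul, zero_add] at h3
          exact h4 rfl (hab 0 n' (by rw [h3, zero_smul, zero_add])).2
        have h5 : (m' * n) • a + (-(m * n')) • b = 0 := by
          have h6 : m' • (m • v + n • a) - m • (m' • v + n' • b) = 0 := by
            rw [h1, h3, smul_zero, smul_zero, sub_zero]
          rw [← h6]
          module
        obtain ⟨h7, h8⟩ := hab _ _ h5
        have hn : n = 0 := (mul_eq_zero.1 h7).resolve_left hm'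
        rw [hn, zero_smul, add_zero] at h1
        exact hm (htf m h1)
  set w := τ.Z v with hwdef
  have hπ : (Real.pi : ℝ) ≠ 0 := Real.pi_ne_zero
  set θ : ℝ := w.arg / Real.pi with hθ
  have hn0 : 0 < ‖w‖ := norm_pos_iff.2 hw
  have hθ' : (Real.pi * θ * Complex.I : ℂ) = (w.arg : ℂ) * Complex.I := by
    rw [hθ]
    push_cast
    have : (Real.pi : ℂ) ≠ 0 := by exact_mod_cast hπ
    field_simp
  have hwexp : w = ‖w‖ * Complex.exp (Real.pi * θ * Complex.I) := by
    rw [hθ']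
    exact (Complex.norm_mul_exp_arg_mul_I w).symm
  have hexpw : Complex.exp (-(Real.pi * θ * Complex.I)) * w = ‖w‖ := by
    conv_lhs => rw [hwexp]
    rw [mul_left_comm, ← Complex.exp_add, neg_add_cancel, Complex.exp_zero, mul_one]
  have hexp : (‖w‖ : ℂ) * Complex.exp (-(Real.pi * θ * Complex.I)) = starRingEnd ℂ w := by
    have hne : (‖w‖ : ℂ) ≠ 0 := by exact_mod_cast hn0.ne'
    have h1 : w * starRingEnd ℂ w = (‖w‖ : ℂ) * ‖w‖ := by
      rw [Complex.mul_conj, Complex.normSq_eq_norm_sq]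
      push_cast; ring
    have h2 : (‖w‖ : ℂ) * ((‖w‖ : ℂ) * Complex.exp (-(Real.pi * θ * Complex.I))) =
        ‖w‖ * starRingEnd ℂ w := by
      rw [← mul_assoc, ← h1]
      rw [show w * starRingEnd ℂ w * Complex.exp (-(Real.pi * θ * Complex.I)) =
        (Complex.exp (-(Real.pi * θ * Complex.I)) * w) * starRingEnd ℂ w by ring, hexpw]
    exact mul_left_cancel₀ hne h2
  have hNpos : (0 : ℝ) < N := by exact_mod_cast hN
  have hdisc : ∀ x : K0 C, 0 < ht τ θ x → 1 / ((N : ℝ) ^ 2 * ‖w‖) ≤ ht τ θ x := by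
    intro x hx
    obtain ⟨p, q, hpq⟩ := hrat v
    obtain ⟨p', q', hpq'⟩ := hrat x
    have h1 : ((N : ℝ) ^ 2 * ‖w‖) * ht τ θ x = ((q * p' - p * q' : ℤ) : ℝ) := by
      have h2 : (((N : ℝ) ^ 2 * ‖w‖ : ℝ) : ℂ) *
          (Complex.exp (-(Real.pi * θ * Complex.I)) * τ.Z x) =
          starRingEnd ℂ ((N : ℂ) * w) * ((N : ℂ) * τ.Z x) := by
        rw [map_mul, Complex.conj_natCast, ← hexp]
        push_cast; ring
      have h3 : ((N : ℝ) ^ 2 * ‖w‖) * (Complex.exp (-(Real.pi * θ * Complex.I)) * τ.Z x).im =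
          (starRingEnd ℂ ((N : ℂ) * w) * ((N : ℂ) * τ.Z x)).im := by
        rw [← h2, Complex.im_ofReal_mul]
      have h4 : ((N : ℝ) ^ 2 * ‖w‖) * ht τ θ x =
          - (((N : ℝ) ^ 2 * ‖w‖) * (Complex.exp (-(Real.pi * θ * Complex.I)) * τ.Z x).im) := by
        show _ * -(Complex.exp (-(Real.pi * θ * Complex.I)) * τ.Z x).im = _
        ring
      rw [h4, h3, hpq, hpq']
      simp
      ring
    have h5 : 0 < ((q * p' - p * q' : ℤ) : ℝ) := by
      rw [← h1]; positivity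
    have h6 : (1 : ℝ) ≤ ((q * p' - p * q' : ℤ) : ℝ) := by
      have : (0 : ℤ) < q * p' - p * q' := by exact_mod_cast h5
      exact_mod_cast this
    rw [div_le_iff₀ (by positivity), mul_comm (ht τ θ x), h1]
    exact h6
  obtain ⟨E, hE, hE0, hEr⟩ := exists_radical_semistable hC.cy hC.indecomposable hC.psd ha hb hab
    τ θ (by positivity) hdisc
  refine ⟨θ, E, hE, hE0, ?_⟩
  obtain ⟨m, hm, hZE⟩ := τ.compat θ E hE hE0
  have hZE' : (‖w‖ : ℂ) * τ.Z (cl E) = m * w := by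
    rw [hZE]
    conv_rhs => rw [hwexp]
    ring
  have hdep : ∃ m₁ n₁ : ℤ, m₁ • v + n₁ • cl E = 0 ∧ (m₁ = 0 → n₁ ≠ 0) := by
    by_contra hcon
    push Not at hcon
    refine hor (cl E) hEr (fun m₁ n₁ h => ?_) ?_
    · exact hcon m₁ n₁ h
    · have h1 : ‖w‖ * orient v (cl E) τ = 0 := by
        show ‖w‖ * (starRingEnd ℂ w * τ.Z (cl E)).im = 0
        rw [← Complex.im_ofReal_mul, mul_left_comm, hZE',
          show starRingEnd ℂ w * (m * w) = (m : ℂ) * (w * starRingEnd ℂ w) by ring,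
          Complex.im_ofReal_mul, Complex.mul_conj, Complex.ofReal_im, mul_zero]
      exact (mul_eq_zero.1 h1).resolve_left hn0.ne'
  obtain ⟨m₁, n₁, h1, h2⟩ := hdep
  have hn1 : n₁ ≠ 0 := by
    rintro rfl
    rw [zero_smul, add_zero] at h1
    exact h2 (htf m₁ h1) rfl
  have h3 : (m₁ : ℝ) * ‖w‖ + n₁ * m = 0 := by
    have h4 : τ.Z (m₁ • v + n₁ • cl E) = 0 := by rw [h1, map_zero]
    rw [map_add, map_zsmul, map_zsmul, zsmul_eq_mul, zsmul_eq_mul, ← hwdef] at h4
    have h5 : (((m₁ : ℝ) * ‖w‖ + n₁ * m : ℝ) : ℂ) * w = 0 := by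
      have h6 : (((m₁ : ℝ) * ‖w‖ + n₁ * m : ℝ) : ℂ) * w =
          (‖w‖ : ℂ) * (m₁ * w + n₁ * τ.Z (cl E)) := by
        rw [mul_add, mul_left_comm (‖w‖ : ℂ) (n₁ : ℂ), hZE']
        push_cast; ring
      rw [h6, h4, mul_zero]
    have h7 := (mul_eq_zero.1 h5).resolve_right hw
    exact_mod_cast h7
  rcases lt_or_gt_of_ne hn1 with hn | hn
  · have hnr : (n₁ : ℝ) < 0 := by exact_mod_cast hn
    have hmr : (0 : ℝ) < m₁ := by
      have : 0 < (m₁ : ℝ) * ‖w‖ := by nlinarith [mul_pos_of_neg_of_neg hnr (neg_neg_of_pos hm)]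
      exact pos_of_mul_pos_left this hn0.le
    have hm1 : 0 < m₁ := by exact_mod_cast hmr
    refine ⟨m₁.toNat, (-n₁).toNat, by omega, by omega, ?_⟩
    rw [← natCast_zsmul, ← natCast_zsmul, Int.toNat_of_nonneg (by omega),
      Int.toNat_of_nonneg (by omega), neg_smul]
    exact neg_eq_of_add_eq_zero_left h1
  · have hnr : (0 : ℝ) < n₁ := by exact_mod_cast hn
    have hmr : (m₁ : ℝ) < 0 := by
      have h8 : (m₁ : ℝ) * ‖w‖ < 0 := by nlinarith [mul_pos hnr hm]
      by_contra hcon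
      push Not at hcon
      nlinarith [mul_nonneg hcon hn0.le]
    have hm1 : m₁ < 0 := by exact_mod_cast hmr
    refine ⟨(-m₁).toNat, n₁.toNat, by omega, by omega, ?_⟩
    rw [← natCast_zsmul, ← natCast_zsmul, Int.toNat_of_nonneg (by omega),
      Int.toNat_of_nonneg (by omega), neg_smul]
    exact eq_neg_of_add_eq_zero_right h1

end MP_14a437_ag
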