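import Pool.Agent.Work.MP_14a437_ag.N.Defs

/-!
# M/Rat  (S-M) : rational approximation of central charges   [no category theory]

Approximate real and imaginary parts of all `w i` by rationals (`Rat.denseRange_cast` or
`exists_rat_btwn`), `N` a common denominator (product of the denominators).  `N * ofVec bs w' x =
∑ i, (bs.repr x i : ℂ) * (N w' i)` is a Gaussian integer.
-/

namespace MP_14a437_ag

theorem exists_rational {Λ : Type*} [AddCommGroup Λ] {ι : Type*} [Fintype ι]
    (bs : Module.Basis ι ℤ Λ) (w : ι → ℂ) {r : ℝ} (hr : 0 < r) :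
    ∃ (w' : ι → ℂ) (N : ℕ), 0 < N ∧ ‖w' - w‖ < r ∧
      ∀ x : Λ, ∃ p q : ℤ, (N : ℂ) * ofVec bs w' x = p + q * Complex.I := by
  classical
  have hq : ∀ t : ℝ, ∃ q : ℚ, |(q : ℝ) - t| < r / 2 := by
    intro t
    obtain ⟨q, h1, h2⟩ := exists_rat_btwn (show t < t + r / 2 by linarith)
    exact ⟨q, by rw [abs_lt]; constructor <;> linarith⟩
  choose q hq using fun i => hq (w i).re
  choose p hp using fun i => (show ∃ p : ℚ, |(p : ℝ) - (w i).im| < r / 2 from by
    obtain ⟨p, h1, h2⟩ := exists_rat_btwn (show (w i).im < (w i).im + r / 2 by linarith)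
    exact ⟨p, by rw [abs_lt]; constructor <;> linarith⟩)
  have hint : ∀ (x : ℚ) (N : ℕ), x.den ∣ N → ∃ m : ℤ, (N : ℂ) * (x : ℂ) = m := by
    rintro x N ⟨c, rfl⟩
    refine ⟨c * x.num, ?_⟩
    have h1 : (x.den : ℂ) * (x : ℂ) = x.num := by
      have h2 : ((x.den : ℚ)) * x = x.num := by
        rw [mul_comm]; exact Rat.mul_den_eq_num x
      exact_mod_cast h2
    push_cast
    rw [mul_comm (x.den : ℂ) (c : ℂ), mul_assoc, h1]
  set N : ℕ := ∏ i, ((q i).den * (p i).den) with hN
  have hN0 : 0 < N := Finset.prod_pos fun i _ => Nat.mul_pos (q i).den_pos (p i).den_pos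
  have hdvd : ∀ i, (q i).den * (p i).den ∣ N := fun i =>
    Finset.dvd_prod_of_mem _ (Finset.mem_univ i)
  choose m hm using fun i => hint (q i) N ((Dvd.intro _ rfl).trans (hdvd i))
  choose n hn using fun i => hint (p i) N ((Dvd.intro_left _ rfl).trans (hdvd i))
  refine ⟨fun i => (q i : ℂ) + (p i : ℂ) * Complex.I, N, hN0, ?_, ?_⟩
  · rw [pi_norm_lt_iff hr]
    intro i
    have h1 : ((fun i => (q i : ℂ) + (p i : ℂ) * Complex.I) - w) i =
        ((((q i : ℝ) - (w i).re : ℝ)) : ℂ) + ((((p i : ℝ) - (w i).im : ℝ)) : ℂ) * Complex.I := by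
      rw [Pi.sub_apply]
      apply Complex.ext
      · simp
      · simp
    rw [h1]
    refine (norm_add_le _ _).trans_lt ?_
    rw [norm_mul, Complex.norm_I, mul_one, Complex.norm_real, Complex.norm_real,
      Real.norm_eq_abs, Real.norm_eq_abs]
    have h2 := hq i
    have h3 := hp i
    linarith
  · intro x
    refine ⟨∑ i, bs.repr x i * m i, ∑ i, bs.repr x i * n i, ?_⟩
    rw [ofVec_apply, Finset.mul_sum, Int.cast_sum, Int.cast_sum, Finset.sum_mul,
      ← Finset.sum_add_distrib]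
    refine Finset.sum_congr rfl fun i _ => ?_
    push_cast
    rw [← hm i, ← hn i]
    ring

end MP_14a437_ag
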