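import Pool.Agent.Work.MP_14a437_ag.M.RadB
import Pool.Agent.Work.MP_14a437_ag.T.Orient
import Pool.Agent.Work.MP_14a437_ag.N.Gen
import Pool.Agent.Work.MP_14a437_ag.R.Local

/-!
# M/Start  (S-M) : every stability condition can be moved slightly to a generic one

Let `bs` be a basis (`Module.Free.chooseBasis`), `w = toVec bs σ.Z`.  `cr (σ.Z a) (σ.Z b) = orient a b σ ≠ 0`
(`orient_ne_zero`), so `cr (ofVec bs w' a) (ofVec bs w' b) ≠ 0` for `w'` near `w` (continuity,
`ofVec_toVec`).  `exists_nonvanishing` gives such a `w'` within the radius of `local_deform_basis` with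
`ofVec bs w' x ≠ 0` for all `x ≠ 0`; `toVec_ofVec` for the values on the basis.
-/

open CategoryTheory CategoryTheory.Limits CategoryTheory.Pretriangulated

universe v u

namespace MP_14a437_ag

variable {C : Type u} [Category.{v} C] [Preadditive C] [HasZeroObject C] [HasShift C ℤ]
  [∀ n : ℤ, (shiftFunctor C n).Additive] [Pretriangulated C] [IsTriangulated C]

variable {k : Type*} [Field k] [IsAlgClosed k] [Linear k C]

theorem exists_good_near (hC : IsTubularCY2 k C) {a b : K0 C} (ha : a ∈ radical hC.cy)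
    (hb : b ∈ radical hC.cy) (hab : ∀ m n : ℤ, m • a + n • b = 0 → m = 0 ∧ n = 0)
    (σ : StabCond C) {ε : ℝ} (hε : 0 < ε) :
    ∃ τ : StabCond C, JoinedS σ τ ∧ Near σ.toSlicing τ.toSlicing ε ∧
      GoodZ (eulerForm hC.cy) a b τ.Z := by
  haveI := hC.free
  haveI := hC.finite
  let bs := Module.Free.chooseBasis ℤ (K0 C)
  set w := toVec bs σ.Z with hw
  have hcr : cr (ofVec bs w a) (ofVec bs w b) ≠ 0 := by
    rw [hw, ofVec_toVec]
    exact orient_ne_zero hC.cy hC.indecomposable hC.psd ha hb hab (hC.span ha hb hab) σ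
  have hcont : Continuous fun w' => cr (ofVec bs w' a) (ofVec bs w' b) :=
    Complex.continuous_im.comp
      ((Complex.continuous_conj.comp (continuous_ofVec bs a)).mul (continuous_ofVec bs b))
  obtain ⟨r₁, hr₁, h1⟩ := Metric.isOpen_iff.1
    (isOpen_ne_fun hcont (continuous_const (y := (0 : ℝ)))) w hcr
  obtain ⟨r, hr, hloc⟩ := local_deform_basis bs σ hε
  obtain ⟨w', hw', hnz⟩ := exists_nonvanishing bs w (lt_min hr hr₁)
  obtain ⟨τ, hZ, hn, hj⟩ := hloc (ofVec bs w') (by
    intro i
    have h2 : ofVec bs w' (bs i) = w' i := congrFun (toVec_ofVec bs w') i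
    rw [h2]
    exact (norm_le_pi_norm (w' - w) i).trans (hw'.le.trans (min_le_left _ _)))
  refine ⟨τ, hj, hn, ?_⟩
  rw [hZ]
  refine ⟨h1 (?_ : w' ∈ Metric.ball w r₁), fun x hx _ => hnz x hx⟩
  rw [mem_ball_iff_norm]
  exact hw'.trans_le (min_le_right _ _)

end MP_14a437_ag
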