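import Pool.Agent.Work.MP_14a437_ag.M.Delta
import Pool.Agent.Work.MP_14a437_ag.N.Open
import Pool.Agent.Work.MP_14a437_ag.R.Local

/-!
# M/Step  (M) : uniform steps in the generic locus

`good_open` with `η = sin(π/8) (cos(π/8) - sin(π/8)) > 0`; `ss_of_delta` turns the estimates on
`{x | B x x ≤ 2}` into the hypothesis of `local_deform` (`ε = 1/8`) for `σ` over `w` and target `ofVec bs w'`,
resp. for `σ` over `w'` and target `ofVec bs w` (`norm_sub_rev`).
`path_lift`: let `γ` be a path in `GoodSet` from `w₀` to `w₂`, `T = {t : unitInterval | ∃ τ, τ.Z = ofVec bs (γ t) ∧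
JoinedS σ τ}`.  `T` and its complement are open by `good_step` at `γ t` (both directions) and continuity
of `γ`; `0 ∈ T`; `unitInterval` is preconnected (`IsClopen.eq_univ`), so `1 ∈ T`.
-/

open CategoryTheory CategoryTheory.Limits CategoryTheory.Pretriangulated

universe v u

namespace MP_14a437_ag

variable {C : Type u} [Category.{v} C] [Preadditive C] [HasZeroObject C] [HasShift C ℤ]
  [∀ n : ℤ, (shiftFunctor C n).Additive] [Pretriangulated C] [IsTriangulated C]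

variable {k : Type*} [Field k] [IsAlgClosed k] [Linear k C]

theorem good_step [Module.Free ℤ (K0 C)] [Module.Finite ℤ (K0 C)] (hCY : IsCY2 C k)
    {ι : Type*} [Fintype ι] (bs : Module.Basis ι ℤ (K0 C)) {a b : K0 C}
    (hB : RadBasis (eulerForm hCY) a b) {w : ι → ℂ} (hw : w ∈ GoodSet bs (eulerForm hCY) a b) :
    ∃ r : ℝ, 0 < r ∧ ∀ w' : ι → ℂ, ‖w' - w‖ < r →
      (∀ σ : StabCond C, σ.Z = ofVec bs w → ∃ τ : StabCond C, τ.Z = ofVec bs w' ∧ JoinedS σ τ) ∧
      (∀ σ : StabCond C, σ.Z = ofVec bs w' → ∃ τ : StabCond C, τ.Z = ofVec bs w ∧ JoinedS σ τ) := by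
  have hπ := Real.pi_pos
  have hs0 : 0 < Real.sin (Real.pi * (1 / 8)) :=
    Real.sin_pos_of_pos_of_lt_pi (by positivity) (by nlinarith)
  have hcs : 0 < Real.cos (Real.pi * (1 / 8)) - Real.sin (Real.pi * (1 / 8)) := by
    have h1 : Real.sin (Real.pi * (1 / 8)) < Real.sin (Real.pi / 2 - Real.pi * (1 / 8)) :=
      Real.sin_lt_sin_of_lt_of_le_pi_div_two (by nlinarith) (by nlinarith) (by nlinarith)
    rw [Real.sin_pi_div_two_sub] at h1
    linarith
  have hη : 0 < Real.sin (Real.pi * (1 / 8)) *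
    (Real.cos (Real.pi * (1 / 8)) - Real.sin (Real.pi * (1 / 8))) := mul_pos hs0 hcs
  obtain ⟨r, hr, hopen⟩ := good_open bs hB hw hη
  refine ⟨r, hr, fun w' hw' => ?_⟩
  obtain ⟨-, hest⟩ := hopen w' hw'
  constructor
  · intro σ hσ
    obtain ⟨τ, hZ, -, hj⟩ := local_deform σ (ofVec bs w') (ε := 1 / 8) (by norm_num) (by norm_num)
      (fun φ E hE => by
        have h1 := ss_of_delta hCY σ (ofVec bs w' - σ.Z) hη.le (by
          intro x hx
          rw [AddMonoidHom.sub_apply, hσ]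
          exact (hest x hx).1) φ E hE
        rwa [AddMonoidHom.sub_apply] at h1)
    exact ⟨τ, hZ, hj⟩
  · intro σ hσ
    obtain ⟨τ, hZ, -, hj⟩ := local_deform σ (ofVec bs w) (ε := 1 / 8) (by norm_num) (by norm_num)
      (fun φ E hE => by
        have h1 := ss_of_delta hCY σ (ofVec bs w - σ.Z) hη.le (by
          intro x hx
          rw [AddMonoidHom.sub_apply, hσ, norm_sub_rev]
          exact (hest x hx).2) φ E hE
        rwa [AddMonoidHom.sub_apply] at h1)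
    exact ⟨τ, hZ, hj⟩

theorem path_lift [Module.Free ℤ (K0 C)] [Module.Finite ℤ (K0 C)] (hCY : IsCY2 C k)
    {ι : Type*} [Fintype ι] (bs : Module.Basis ι ℤ (K0 C)) {a b : K0 C}
    (hB : RadBasis (eulerForm hCY) a b) {w₀ w₂ : ι → ℂ}
    (h : JoinedIn (GoodSet bs (eulerForm hCY) a b) w₀ w₂) (σ : StabCond C)
    (hσ : σ.Z = ofVec bs w₀) : ∃ τ : StabCond C, τ.Z = ofVec bs w₂ ∧ JoinedS σ τ := by
  obtain ⟨γ, hγ⟩ := h
  set T : Set unitInterval := {t | ∃ τ : StabCond C, τ.Z = ofVec bs (γ t) ∧ JoinedS σ τ} with hT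
  have hnb : ∀ (t : unitInterval) {r : ℝ}, 0 < r → ∃ δ : ℝ, 0 < δ ∧ ∀ s ∈ Metric.ball t δ,
      ‖γ s - γ t‖ < r := by
    intro t r hr
    obtain ⟨δ, hδ, h1⟩ := Metric.continuous_iff.1 γ.continuous t r hr
    refine ⟨δ, hδ, fun s hs => ?_⟩
    have h2 := h1 s hs
    rwa [dist_eq_norm] at h2
  have hclopen : IsClopen T := by
    constructor
    · rw [← isOpen_compl_iff, Metric.isOpen_iff]
      intro t ht
      obtain ⟨r, hr, h1⟩ := good_step hCY bs hB (hγ t)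
      obtain ⟨δ, hδ, h2⟩ := hnb t hr
      refine ⟨δ, hδ, fun s hs hsT => ht ?_⟩
      obtain ⟨τ, hZ, hj⟩ := hsT
      obtain ⟨τ', hZ', hj'⟩ := (h1 (γ s) (h2 s hs)).2 τ hZ
      exact ⟨τ', hZ', hj.trans hj'⟩
    · rw [Metric.isOpen_iff]
      intro t ht
      obtain ⟨r, hr, h1⟩ := good_step hCY bs hB (hγ t)
      obtain ⟨δ, hδ, h2⟩ := hnb t hr
      refine ⟨δ, hδ, fun s hs => ?_⟩
      obtain ⟨τ, hZ, hj⟩ := ht
      obtain ⟨τ', hZ', hj'⟩ := (h1 (γ s) (h2 s hs)).1 τ hZ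
      exact ⟨τ', hZ', hj.trans hj'⟩
  have h0 : (0 : unitInterval) ∈ T := ⟨σ, by rw [γ.source]; exact hσ, JoinedS.refl σ⟩
  have huniv : T = Set.univ := hclopen.eq_univ ⟨0, h0⟩
  have h1 : (1 : unitInterval) ∈ T := by rw [huniv]; trivial
  obtain ⟨τ, hZ, hj⟩ := h1
  rw [γ.target] at hZ
  exact ⟨τ, hZ, hj⟩

end MP_14a437_ag
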