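import Pool.Agent.Work.MP_14a437_ag.M.Start
import Pool.Agent.Work.MP_14a437_ag.M.Step
import Pool.Agent.Work.MP_14a437_ag.N.Conn

/-!
# M/ThmC  (S-M) : every generic central charge of the right orientation occurs in every component

`exists_good_near` with `ε = 1/4`: `τ₁` joined to `σ`, `GoodZ τ₁.Z`, and `0 < orient σ * orient τ₁`
(`orient_near`).  `orient a b τ = cr (τ.Z a) (τ.Z b)` by definition.  With a basis `bs`, `good_joined` joins
`toVec bs τ₁.Z` to `toVec bs W` in `GoodSet` (`ofVec_toVec`), `path_lift`.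
-/

open CategoryTheory CategoryTheory.Limits CategoryTheory.Pretriangulated

universe v u

namespace MP_14a437_ag

variable {C : Type u} [Category.{v} C] [Preadditive C] [HasZeroObject C] [HasShift C ℤ]
  [∀ n : ℤ, (shiftFunctor C n).Additive] [Pretriangulated C] [IsTriangulated C]

variable {k : Type*} [Field k] [IsAlgClosed k] [Linear k C]

theorem component_surjects (hC : IsTubularCY2 k C) {a b : K0 C} (ha : a ∈ radical hC.cy)
    (hb : b ∈ radical hC.cy) (hab : ∀ m n : ℤ, m • a + n • b = 0 → m = 0 ∧ n = 0)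
    (σ : StabCond C) (W : K0 C →+ ℂ) (hW : GoodZ (eulerForm hC.cy) a b W)
    (hs : 0 < orient a b σ * cr (W a) (W b)) :
    ∃ τ : StabCond C, τ.Z = W ∧ JoinedS σ τ := by
  haveI := hC.free
  haveI := hC.finite
  obtain ⟨τ₁, hj, hn, hg⟩ := exists_good_near hC ha hb hab σ (ε := 1 / 4) (by norm_num)
  have ho := orient_near hC.cy hC.indecomposable hC.psd ha hb hab (hC.span ha hb hab) σ τ₁
    (by norm_num) (by norm_num) hn
  have hs1 : 0 < cr (τ₁.Z a) (τ₁.Z b) * cr (W a) (W b) := by
    have h1 : orient a b τ₁ = cr (τ₁.Z a) (τ₁.Z b) := rfl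
    rw [← h1]
    have h2 : 0 < (orient a b σ * orient a b τ₁) * (orient a b σ * cr (W a) (W b)) :=
      mul_pos ho hs
    have h3 : (orient a b σ * orient a b τ₁) * (orient a b σ * cr (W a) (W b)) =
        (orient a b σ) ^ 2 * (orient a b τ₁ * cr (W a) (W b)) := by ring
    rw [h3] at h2
    exact pos_of_mul_pos_right h2 (sq_nonneg _)
  let bs := Module.Free.chooseBasis ℤ (K0 C)
  have hB := hC.radBasis ha hb hab
  obtain ⟨τ, hZ, hj'⟩ := path_lift hC.cy bs hB (good_joined bs hB
    (w₀ := toVec bs τ₁.Z) (w₂ := toVec bs W)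
    (by show GoodZ _ a b (ofVec bs (toVec bs τ₁.Z)); rw [ofVec_toVec]; exact hg)
    (by show GoodZ _ a b (ofVec bs (toVec bs W)); rw [ofVec_toVec]; exact hW)
    (by rw [ofVec_toVec, ofVec_toVec]; exact hs1)) τ₁ (by rw [ofVec_toVec])
  rw [ofVec_toVec] at hZ
  exact ⟨τ, hZ, hj.trans hj'⟩

end MP_14a437_ag
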