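import Pool.Agent.Work.MP_14a437_ag.M.RadMult
import Pool.Agent.Work.MP_14a437_ag.M.Rat
import Pool.Agent.Work.MP_14a437_ag.R.Local
import Pool.Agent.Work.MP_14a437_ag.R.TopDef

/-!
# M/ThmD  (S-M) : density

`local_deform_basis` with `min` of `ε` and a radius making `‖(W - Z) x‖ ≤ ε` on the finite set `F`
(`(W-Z) x = ∑ repr x i * (W-Z)(bs i)`), `exists_rational` for `w = toVec bs σ.Z`, `radical_multiple`.
-/

open CategoryTheory CategoryTheory.Limits CategoryTheory.Pretriangulated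

universe v u

namespace MP_14a437_ag

variable {C : Type u} [Category.{v} C] [Preadditive C] [HasZeroObject C] [HasShift C ℤ]
  [∀ n : ℤ, (shiftFunctor C n).Additive] [Pretriangulated C] [IsTriangulated C]

variable {k : Type*} [Field k] [IsAlgClosed k] [Linear k C]

theorem dense_radical (hC : IsTubularCY2 k C) (σ : StabCond C) {ε : ℝ} (hε : 0 < ε)
    (F : Finset (K0 C)) : ∃ τ : StabCond C, JoinedS σ τ ∧ Near σ.toSlicing τ.toSlicing ε ∧
      (∀ x ∈ F, ‖τ.Z x - σ.Z x‖ ≤ ε) ∧ ∀ v ∈ radical hC.cy, v ≠ 0 →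
        ∃ (φ : ℝ) (E : C), τ.P φ E ∧ ¬ IsZero E ∧
          ∃ p q : ℕ, 0 < p ∧ 0 < q ∧ q • cl E = p • v := by
  haveI := hC.free
  haveI := hC.finite
  classical
  let bs := Module.Free.chooseBasis ℤ (K0 C)
  obtain ⟨r, hr, hloc⟩ := local_deform_basis bs σ hε
  set M : ℝ := ∑ x ∈ F, ∑ i, |(bs.repr x i : ℝ)| with hM
  have hM0 : 0 ≤ M := Finset.sum_nonneg fun _ _ => Finset.sum_nonneg fun _ _ => abs_nonneg _
  set ρ : ℝ := min r (ε / (M + 1)) with hρ
  have hρ0 : 0 < ρ := lt_min hr (by positivity)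
  obtain ⟨w', N, hN, hw', hrat⟩ := exists_rational bs (toVec bs σ.Z) hρ0
  obtain ⟨τ, hZ, hn, hj⟩ := hloc (ofVec bs w') (by
    intro i
    have h1 : ofVec bs w' (bs i) = w' i := congrFun (toVec_ofVec bs w') i
    rw [h1]
    exact (norm_le_pi_norm (w' - toVec bs σ.Z) i).trans (hw'.le.trans (min_le_left _ _)))
  refine ⟨τ, hj, hn, ?_, ?_⟩
  · intro x hx
    rw [hZ]
    have h1 : ofVec bs w' x - σ.Z x = ofVec bs (w' - toVec bs σ.Z) x := by
      conv_lhs => rw [← ofVec_toVec bs σ.Z]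
      simp only [ofVec_apply, Pi.sub_apply, mul_sub, Finset.sum_sub_distrib]
    rw [h1, ofVec_apply]
    have h2 : ∑ i, |(bs.repr x i : ℝ)| ≤ M :=
      Finset.single_le_sum (f := fun x => ∑ i, |(bs.repr x i : ℝ)|)
        (fun _ _ => Finset.sum_nonneg fun _ _ => abs_nonneg _) hx
    calc ‖∑ i, (bs.repr x i : ℂ) * (w' - toVec bs σ.Z) i‖
        ≤ ∑ i, ‖(bs.repr x i : ℂ) * (w' - toVec bs σ.Z) i‖ := norm_sum_le _ _
      _ ≤ ∑ i, |(bs.repr x i : ℝ)| * ρ := by
          refine Finset.sum_le_sum fun i _ => ?_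
          rw [norm_mul]
          refine mul_le_mul (le_of_eq ?_) ((norm_le_pi_norm _ i).trans hw'.le) (norm_nonneg _)
            (abs_nonneg _)
          rw [← Complex.ofReal_intCast, Complex.norm_real, Real.norm_eq_abs]
      _ = (∑ i, |(bs.repr x i : ℝ)|) * ρ := by rw [Finset.sum_mul]
      _ ≤ M * (ε / (M + 1)) := by
          refine mul_le_mul h2 (min_le_right _ _) hρ0.le hM0
      _ ≤ ε := by
          rw [mul_div_assoc', div_le_iff₀ (by positivity)]
          nlinarith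
  · intro v hv hv0
    exact radical_multiple hC τ hN (by intro x; rw [hZ]; exact hrat x) v hv hv0

end MP_14a437_ag
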